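import Mathlib
import Pool.Agent.H584R3.DilCore5

/-!
# Three commuting unital CP maps on `B(ℂ⁶)` with no dilation whatsoever

`MP_0a86e9_an`, Q1.  All definitions follow the problem file.
-/

open scoped InnerProductSpace

namespace Pool.Agent.Results.MP_0a86e9_an.NoDilation

universe u v

/-- The bounded operators on `H`. -/
abbrev Op (H : Type v) [NormedAddCommGroup H] [InnerProductSpace ℂ H] : Type v := H →L[ℂ] H

section Defs

variable {H : Type v} [NormedAddCommGroup H] [InnerProductSpace ℂ H] [CompleteSpace H]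

/-- `T` restricts to a linear map from the von Neumann algebra `A ⊆ B(H)` to itself. -/
structure IsLinearOn (A : VonNeumannAlgebra H) (T : Op H → Op H) : Prop where
  maps : ∀ a ∈ A, T a ∈ A
  add : ∀ a ∈ A, ∀ b ∈ A, T (a + b) = T a + T b
  smul : ∀ c : ℂ, ∀ a ∈ A, T (c • a) = c • T a

/-- `T` is completely positive on `A`: for all `n` and all `a₁,…,aₙ, b₁,…,bₙ ∈ A` the operator
`∑ᵢⱼ bᵢ* T(aᵢ* aⱼ) bⱼ` is positive. -/
def IsCP (A : VonNeumannAlgebra H) (T : Op H → Op H) : Prop :=
  ∀ (n : ℕ) (a b : Fin n → Op H), (∀ i, a i ∈ A) → (∀ i, b i ∈ A) →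
    (∑ i, ∑ j, star (b i) * T (star (a i) * a j) * b j).IsPositive

/-- `T` is normal on `A`, i.e. ultraweakly continuous: for all `ξ, η` the functional
`a ↦ ⟨ξ, T(a) η⟩` on `A` has the form `∑ₙ ⟨ξₙ, a ηₙ⟩` with `∑ ‖ξₙ‖² < ∞`, `∑ ‖ηₙ‖² < ∞`. -/
def IsNormal (A : VonNeumannAlgebra H) (T : Op H → Op H) : Prop :=
  ∀ ξ η : H, ∃ ξs ηs : ℕ → H,
    Summable (fun n => ‖ξs n‖ ^ 2) ∧ Summable (fun n => ‖ηs n‖ ^ 2) ∧
    ∀ a ∈ A, ⟪ξ, T a η⟫_ℂ = ∑' n, ⟪ξs n, a (ηs n)⟫_ℂ

/-- `T` is a unital normal contractive completely positive map on `A`. -/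
structure IsUnitalNormalCP (A : VonNeumannAlgebra H) (T : Op H → Op H) : Prop where
  linear : IsLinearOn A T
  cp : IsCP A T
  normal : IsNormal A T
  unital : T 1 = 1
  contractive : ∀ a ∈ A, ‖T a‖ ≤ ‖a‖

/-- `θ` is a normal `*`-endomorphism (not required to be unital) of `B`. -/
structure IsNormalEndo (B : VonNeumannAlgebra H) (θ : Op H → Op H) : Prop where
  linear : IsLinearOn B θ
  mul : ∀ a ∈ B, ∀ b ∈ B, θ (a * b) = θ a * θ b
  star : ∀ a ∈ B, θ (star a) = star (θ a)
  normal : IsNormal B θ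

/-- `θ` is an E-semigroup over `ℕᵏ` on `B`. -/
structure IsESemigroup (B : VonNeumannAlgebra H) {k : ℕ} (θ : (Fin k → ℕ) → Op H → Op H) :
    Prop where
  endo : ∀ s, IsNormalEndo B (θ s)
  zero : ∀ b ∈ B, θ 0 b = b
  add : ∀ s t, ∀ b ∈ B, θ (s + t) b = θ s (θ t b)

/-- The semigroup over `ℕ³` generated by three (commuting) maps:
`T_s = T₁^{s₁} T₂^{s₂} T₃^{s₃}`. -/
def generated (T : Fin 3 → Op H → Op H) : (Fin 3 → ℕ) → Op H → Op H :=
  fun s a => (T 0)^[s 0] ((T 1)^[s 1] ((T 2)^[s 2] a))

variable {K : Type u} [NormedAddCommGroup K] [InnerProductSpace ℂ K] [CompleteSpace K]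

/-- For `H ⊆ K` (inclusion `J`), an operator `a` on `H` regarded as the operator `J a J*` on
`K` (so `a` on `H` and `0` on the orthogonal complement of `H`).  In particular `emb J 1 = J J*`
is the projection `p` of `K` onto `H`. -/
noncomputable def emb (J : H →ₗᵢ[ℂ] K) (a : Op H) : Op K :=
  J.toContinuousLinearMap ∘L a ∘L ContinuousLinearMap.adjoint J.toContinuousLinearMap

/-- With `p` the projection of `K` onto `H`: `p ∈ B` and `A = p B p` as a corner. -/
structure IsCorner (A : VonNeumannAlgebra H) (J : H →ₗᵢ[ℂ] K) (B : VonNeumannAlgebra K) :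
    Prop where
  mem : emb J 1 ∈ B
  sub : ∀ a ∈ A, emb J a ∈ B
  sup : ∀ b ∈ B, ∃ a ∈ A, emb J 1 * b * emb J 1 = emb J a

/-- `(p, K, B, θ)` is a dilation of the family `T = (T_s)` of maps on the von Neumann algebra
`A ⊆ B(H)`.  The inclusion `H ⊆ K` is the isometry `J`, and `p = J J*`. -/
structure IsDilation (A : VonNeumannAlgebra H) {k : ℕ} (T : (Fin k → ℕ) → Op H → Op H)
    (J : H →ₗᵢ[ℂ] K) (B : VonNeumannAlgebra K) (θ : (Fin k → ℕ) → Op K → Op K) : Prop where
  corner : IsCorner A J B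
  esemigroup : IsESemigroup B θ
  dilates : ∀ s, ∀ a ∈ A, emb J 1 * θ s (emb J a) * emb J 1 = emb J (T s a)

end Defs

section Kraus

variable (H : Type v) [NormedAddCommGroup H] [InnerProductSpace ℂ H] [CompleteSpace H]

/-- `B(H)` as a von Neumann algebra. -/
noncomputable def full : VonNeumannAlgebra H where
  toStarSubalgebra := ⊤
  centralizer_centralizer' := by
    apply Set.eq_univ_of_forall
    intro x
    rw [Set.mem_centralizer_iff]
    intro m hm
    rw [Set.mem_centralizer_iff] at hm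
    exact (hm x (Set.mem_univ x)).symm

variable {H}

lemma mem_full (x : Op H) : x ∈ full H := trivial

/-- The map `x ↦ ∑ₖ Lₖ* x Lₖ` on `B(H)`. -/
noncomputable def krausMap {n : ℕ} (L : Fin n → Op H) (x : Op H) : Op H :=
  ∑ k, star (L k) * x * L k

lemma krausMap_linear {n : ℕ} (L : Fin n → Op H) : IsLinearOn (full H) (krausMap L) where
  maps _ _ := trivial
  add x _ y _ := by
    unfold krausMap
    rw [← Finset.sum_add_distrib]
    exact Finset.sum_congr rfl fun k _ => by noncomm_ring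
  smul c x _ := by
    unfold krausMap
    rw [Finset.smul_sum]
    exact Finset.sum_congr rfl fun k _ => by rw [mul_smul_comm, smul_mul_assoc]

lemma krausMap_cp {n : ℕ} (L : Fin n → Op H) : IsCP (full H) (krausMap L) := by
  intro m a b _ _
  have h : (∑ i, ∑ j, star (b i) * krausMap L (star (a i) * a j) * b j) =
      ∑ k, star (∑ i, a i * L k * b i) * (∑ i, a i * L k * b i) := by
    have h2 : ∀ k, star (∑ i, a i * L k * b i) * (∑ i, a i * L k * b i)
        = ∑ i, ∑ j, star (b i) * (star (L k) * (star (a i) * a j) * L k) * b j := by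
      intro k
      rw [star_sum, Finset.sum_mul_sum]
      refine Finset.sum_congr rfl fun i _ => Finset.sum_congr rfl fun j _ => ?_
      rw [star_mul, star_mul]
      noncomm_ring
    unfold krausMap
    simp_rw [h2, Finset.mul_sum, Finset.sum_mul]
    rw [Finset.sum_comm (s := Finset.univ (α := Fin n))]
    refine Finset.sum_congr rfl fun t _ => ?_
    rw [Finset.sum_comm (s := Finset.univ (α := Fin n))]
  rw [h]
  exact ContinuousLinearMap.isPositive_sum _ fun k _ => by
    rw [ContinuousLinearMap.star_eq_adjoint]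
    exact ContinuousLinearMap.isPositive_adjoint_comp_self _

lemma krausMap_normal {n : ℕ} (L : Fin n → Op H) : IsNormal (full H) (krausMap L) := by
  intro ξ η
  refine ⟨fun m => if h : m < n then L ⟨m, h⟩ ξ else 0,
    fun m => if h : m < n then L ⟨m, h⟩ η else 0, ?_, ?_, ?_⟩
  · refine summable_of_ne_finset_zero (s := Finset.range n) fun m hm => ?_
    have : ¬ m < n := by simpa using hm
    simp [this]
  · refine summable_of_ne_finset_zero (s := Finset.range n) fun m hm => ?_
    have : ¬ m < n := by simpa using hm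
    simp [this]
  · intro a _
    rw [tsum_eq_sum (s := Finset.range n)]
    · rw [Finset.sum_range, krausMap, sum_apply, inner_sum]
      refine Finset.sum_congr rfl fun k _ => ?_
      simp only [Fin.is_lt, dite_true]
      rw [mul_apply_eq_comp, mul_apply_eq_comp,
        ContinuousLinearMap.star_eq_adjoint, ContinuousLinearMap.adjoint_inner_right]
    · intro m hm
      have : ¬ m < n := by simpa using hm
      simp [this]

lemma krausMap_contractive {n : ℕ} (L : Fin n → Op H) (hL : ∑ k, star (L k) * L k = 1)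
    (x : Op H) : ‖krausMap L x‖ ≤ ‖x‖ := by
  have hn : ∀ v : H, ∑ k, ‖L k v‖ ^ 2 = ‖v‖ ^ 2 := by
    intro v
    have h : (∑ k, star (L k) * L k) v = v := by rw [hL]; rfl
    have h2 : RCLike.re ⟪v, (∑ k, star (L k) * L k) v⟫_ℂ = ‖v‖ ^ 2 := by
      rw [h]; exact (norm_sq_eq_re_inner v).symm
    rw [← h2, sum_apply, inner_sum, map_sum]
    refine Finset.sum_congr rfl fun k _ => ?_
    rw [mul_apply_eq_comp, ContinuousLinearMap.star_eq_adjoint,
      ContinuousLinearMap.adjoint_inner_right]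
    exact norm_sq_eq_re_inner _
  refine ContinuousLinearMap.opNorm_le_bound _ (norm_nonneg _) fun η => ?_
  by_contra hcon
  push Not at hcon
  set w := krausMap L x η with hw
  have h1 : ‖w‖ ^ 2 = ‖⟪w, w⟫_ℂ‖ := by
    rw [inner_self_eq_norm_sq_to_K]; simp
  have h2 : ⟪w, w⟫_ℂ = ∑ k, ⟪L k w, x (L k η)⟫_ℂ := by
    have hw' : ⟪w, w⟫_ℂ = ⟪w, (∑ k, star (L k) * x * L k) η⟫_ℂ := rfl
    rw [hw', sum_apply, inner_sum]
    refine Finset.sum_congr rfl fun k _ => ?_
    rw [mul_apply_eq_comp, mul_apply_eq_comp,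
        ContinuousLinearMap.star_eq_adjoint, ContinuousLinearMap.adjoint_inner_right]
  have h3 : ‖⟪w, w⟫_ℂ‖ ≤ ‖x‖ * (‖w‖ * ‖η‖) := by
    rw [h2]
    calc ‖∑ k, ⟪L k w, x (L k η)⟫_ℂ‖
        ≤ ∑ k, ‖⟪L k w, x (L k η)⟫_ℂ‖ := norm_sum_le _ _
      _ ≤ ∑ k, ‖x‖ * (‖L k w‖ * ‖L k η‖) := by
          refine Finset.sum_le_sum fun k _ => ?_
          calc ‖⟪L k w, x (L k η)⟫_ℂ‖ ≤ ‖L k w‖ * ‖x (L k η)‖ :=
                norm_inner_le_norm _ _
            _ ≤ ‖L k w‖ * (‖x‖ * ‖L k η‖) := by
                gcongr; exact ContinuousLinearMap.le_opNorm _ _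
            _ = _ := by ring
      _ = ‖x‖ * ∑ k, ‖L k w‖ * ‖L k η‖ := by rw [Finset.mul_sum]
      _ ≤ ‖x‖ * (‖w‖ * ‖η‖) := by
          refine mul_le_mul_of_nonneg_left ?_ (norm_nonneg _)
          have hcs := Finset.sum_mul_sq_le_sq_mul_sq Finset.univ (fun k => ‖L k w‖) (fun k => ‖L k η‖)
          rw [hn, hn, ← mul_pow] at hcs
          exact le_of_sq_le_sq hcs (by positivity)
  rw [← h1] at h3
  have hwpos : 0 < ‖w‖ := lt_of_le_of_lt (by positivity) hcon
  have h4 : ‖w‖ * ‖w‖ ≤ ‖w‖ * (‖x‖ * ‖η‖) := by nlinarith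
  exact absurd (le_of_mul_le_mul_left h4 hwpos) (not_le.mpr hcon)

end Kraus

open Pool.Agent.H584R3.DilCore (M6 K Tm)

/-- The Hilbert space `ℂ⁶`. -/
abbrev E6 : Type := EuclideanSpace ℂ (Fin 6)

/-- `M₆(ℂ) ≅ B(ℂ⁶)`. -/
noncomputable abbrev Φ : M6 ≃⋆ₐ[ℂ] (E6 →L[ℂ] E6) := Matrix.toEuclideanCLM (𝕜 := ℂ) (n := Fin 6)

/-- The three maps: `T₁(a) = ½M₁*aM₁ + ½M₂*aM₂ + a₅₅G`, `T₂(a) = P*aP + a₅₅G`,
`T₃(a) = Q*aQ + a₅₅G` in Kraus form. -/
noncomputable def T (i : Fin 3) : Op E6 → Op E6 := krausMap fun k => Φ (K i k)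

lemma T_eq (i : Fin 3) (a : M6) : T i (Φ a) = Φ (Tm i a) := by
  rw [T, krausMap, Tm, map_sum]
  refine Finset.sum_congr rfl fun k _ => ?_
  rw [map_mul, map_mul, map_star]

lemma T_comm (i j : Fin 3) (x : Op E6) : T i (T j x) = T j (T i x) := by
  obtain ⟨a, rfl⟩ := Φ.surjective x
  have h : ∀ i j, T i (T j (Φ a)) = Φ (Tm i (Tm j a)) := by
    intro i j
    rw [T_eq, T_eq]
  exact (h i j).trans ((congrArg Φ (Pool.Agent.H584R3.DilCore.Tm_comm i j a)).trans (h j i).symm)

lemma T_one (i : Fin 3) : T i 1 = 1 := by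
  have h : (1 : Op E6) = Φ 1 := by simp
  rw [h, T_eq, Pool.Agent.H584R3.DilCore.Tm_one]

section Main

variable {K' : Type u} [NormedAddCommGroup K'] [InnerProductSpace ℂ K'] [CompleteSpace K']

lemma adj_apply (J : E6 →ₗᵢ[ℂ] K') (w : E6) :
    ContinuousLinearMap.adjoint J.toContinuousLinearMap (J.toContinuousLinearMap w) = w :=
  DFunLike.congr_fun J.adjoint_comp_self w

/-- A star algebra embedding of `M₆` in the von Neumann algebra of a dilation. -/
noncomputable def jmap {J : E6 →ₗᵢ[ℂ] K'} {B : VonNeumannAlgebra K'}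
    (hc : IsCorner (full E6) J B) : M6 →ₙ+* B.toStarSubalgebra where
  toFun a := ⟨emb J (Φ a), hc.sub (Φ a) trivial⟩
  map_mul' a b := by
    apply Subtype.ext
    change emb J (Φ (a * b)) = emb J (Φ a) * emb J (Φ b)
    ext v
    simp only [emb, mul_apply_eq_comp, ContinuousLinearMap.comp_apply, adj_apply, map_mul]
  map_zero' := by
    apply Subtype.ext
    change emb J (Φ 0) = 0
    simp [emb]
  map_add' a b := by
    apply Subtype.ext
    change emb J (Φ (a + b)) = emb J (Φ a) + emb J (Φ b)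
    rw [emb, emb, emb, map_add, ContinuousLinearMap.add_comp, ContinuousLinearMap.comp_add]

/-- The restriction of an endomorphism. -/
noncomputable def thmap {B : VonNeumannAlgebra K'} {θ : Op K' → Op K'} (h : IsNormalEndo B θ) :
    B.toStarSubalgebra →ₙ+* B.toStarSubalgebra where
  toFun b := ⟨θ b, h.linear.maps b b.2⟩
  map_mul' a b := Subtype.ext (h.mul a a.2 b b.2)
  map_zero' := by
    apply Subtype.ext
    have := h.linear.smul 0 0 (zero_mem B.toStarSubalgebra)
    change θ 0 = 0
    simpa using this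
  map_add' a b := Subtype.ext (h.linear.add a a.2 b b.2)

lemma no_dilation (J : E6 →ₗᵢ[ℂ] K') (B : VonNeumannAlgebra K')
    (θ : (Fin 3 → ℕ) → Op K' → Op K') (D : IsDilation (full E6) (generated T) J B θ) :
    False := by
  have key : jmap D.corner Pool.Agent.H584R3.DilCore.q = 0 := by
    refine Pool.Agent.H584R3.DilCore.core (R := B.toStarSubalgebra) ?_ (jmap D.corner) ?_
      (fun i => thmap (D.esemigroup.endo (Pi.single i 1))) ?_ ?_ ?_
    · intro x hx
      apply Subtype.ext
      have : star (x : K' →L[ℂ] K') * (x : K' →L[ℂ] K') = 0 := congrArg Subtype.val hx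
      exact CStarRing.star_mul_self_eq_zero_iff _ |>.mp this
    · intro a
      apply Subtype.ext
      change emb J (Φ (star a)) = star (emb J (Φ a))
      rw [emb, emb, map_star, ContinuousLinearMap.star_eq_adjoint,
        ContinuousLinearMap.star_eq_adjoint,
        ContinuousLinearMap.adjoint_comp, ContinuousLinearMap.adjoint_comp,
        ContinuousLinearMap.adjoint_adjoint, ContinuousLinearMap.comp_assoc]
    · intro i a
      exact Subtype.ext ((D.esemigroup.endo (Pi.single i 1)).star a a.2)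
    · intro i k x
      apply Subtype.ext
      change θ (Pi.single i 1) (θ (Pi.single k 1) x) = θ (Pi.single k 1) (θ (Pi.single i 1) x)
      rw [← D.esemigroup.add _ _ _ x.2, ← D.esemigroup.add _ _ _ x.2, add_comm]
    · intro i A B' C
      have hT : generated T (Pi.single i 1) = T i := by
        funext a
        fin_cases i <;> simp [generated]
      have hd := D.dilates (Pi.single i 1) (Φ B') trivial
      rw [hT, T_eq] at hd
      apply Subtype.ext
      change emb J (Φ A) * θ (Pi.single i 1) (emb J (Φ B')) * emb J (Φ C) =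
        emb J (Φ (A * Tm i B' * C))
      ext v
      have hd' : ∀ w : E6, ContinuousLinearMap.adjoint J.toContinuousLinearMap
          (θ (Pi.single i 1) (emb J (Φ B')) (J.toContinuousLinearMap w)) = Φ (Tm i B') w := by
        intro w
        have h := DFunLike.congr_fun hd (J.toContinuousLinearMap w)
        have h2 := congrArg (ContinuousLinearMap.adjoint J.toContinuousLinearMap) h
        rw [mul_apply_eq_comp, mul_apply_eq_comp] at h2
        simp only [emb, ContinuousLinearMap.comp_apply, adj_apply, one_apply_eq_self] at h2 ⊢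
        exact h2
      simp only [mul_apply_eq_comp, map_mul]
      change emb J (Φ A) (θ (Pi.single i 1) (emb J (Φ B')) (emb J (Φ C) v)) =
        emb J (Φ A * Φ (Tm i B') * Φ C) v
      have h3 : emb J (Φ C) v = J.toContinuousLinearMap
          (Φ C (ContinuousLinearMap.adjoint J.toContinuousLinearMap v)) := rfl
      have h4 : ∀ w, emb J (Φ A) w = J.toContinuousLinearMap
          (Φ A (ContinuousLinearMap.adjoint J.toContinuousLinearMap w)) := fun w => rfl
      rw [h3, h4, hd']
      rfl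
  have h0 : emb J (Φ Pool.Agent.H584R3.DilCore.q) = 0 := congrArg Subtype.val key
  have h1 : Φ Pool.Agent.H584R3.DilCore.q = 0 := by
    ext1 w
    have h := DFunLike.congr_fun h0 (J.toContinuousLinearMap w)
    simp only [emb, ContinuousLinearMap.comp_apply, adj_apply] at h
    have h2 := congrArg (ContinuousLinearMap.adjoint J.toContinuousLinearMap) h
    rw [adj_apply] at h2
    simpa using h2
  have h2 : Pool.Agent.H584R3.DilCore.q = 0 := by
    apply Φ.injective
    exact h1.trans (map_zero Φ).symm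
  have h3 := congrFun (congrFun h2 0) 0
  simp [Pool.Agent.H584R3.DilCore.q, Pool.Agent.H584R3.DilCore.e] at h3

end Main

/-- **MP_0a86e9_an, Q1 (answer: yes).**  There are a von Neumann algebra `A` (in fact
`A = B(ℂ⁶)`) and three commuting unital normal (contractive) completely positive maps
`T₁, T₂, T₃` on `A` such that the associated CP-semigroup over `ℕ³` has no dilation
`(p, K, B, θ)` at all, for any Hilbert space `K` and any von Neumann algebra `B ⊆ B(K)`. -/
theorem result :
    ∃ (A : VonNeumannAlgebra E6) (T : Fin 3 → Op E6 → Op E6),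
      (∀ x : Op E6, x ∈ A) ∧
      (∀ i, IsUnitalNormalCP A (T i)) ∧
      (∀ i j, ∀ a ∈ A, T i (T j a) = T j (T i a)) ∧
      ∀ (K : Type u) [NormedAddCommGroup K] [InnerProductSpace ℂ K] [CompleteSpace K]
        (J : E6 →ₗᵢ[ℂ] K) (B : VonNeumannAlgebra K) (θ : (Fin 3 → ℕ) → Op K → Op K),
        ¬ IsDilation A (generated T) J B θ := by
  refine ⟨full E6, T, fun x => trivial, fun i => ⟨krausMap_linear _, krausMap_cp _,
    krausMap_normal _, T_one i, fun a _ => krausMap_contractive _ ?_ a⟩,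
    fun i j a _ => T_comm i j a, ?_⟩
  · have h := T_one i
    rw [T, krausMap] at h
    simpa using h
  · intro K' _ _ _ J B θ D
    exact no_dilation J B θ D

end Pool.Agent.Results.MP_0a86e9_an.NoDilation
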